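import Pool.Agent.Helper79.OE.GoalsD

/-!
Project OE (MP_fc0446_an), packet OE-BME: the batch is measurable.
-/

open MeasureTheory Filter
open scoped ENNReal

namespace Pool.Agent.Helper3.OE

open Pool.Agent.Helper73.OE Pool.Agent.Helper79.OE

theorem bme : D_BME := by
  classical
  intro hdyn
  unfold BatchMeas_stmt
  intro H S L _ _ _ _ X P ε ε'
  rw [measurable_pi_iff]
  intro o
  have hD : ∀ (Λ : Finset H) (f : S ≃ L), MeasurableSet
      {w : (Cfg H S L × Env H S) × Seeds H S |
        X.dyn P ε ε' (Λ : Set H) w.1.1 w.1.2 w.2 o = f} := by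
    intro Λ f
    have h1 : Measurable fun w : (Cfg H S L × Env H S) × Seeds H S =>
        X.dyn P ε ε' (Λ : Set H) w.1.1 w.1.2 w.2 o :=
      (measurable_pi_apply o).comp (hdyn X P ε ε' Λ)
    exact h1 (MeasurableSpace.measurableSet_top (s := {f}))
  set E : (S ≃ L) → Set ((Cfg H S L × Env H S) × Seeds H S) := fun f =>
    {w | ∀ᶠ Λ : Finset H in atTop, X.dyn P ε ε' (Λ : Set H) w.1.1 w.1.2 w.2 o = f} with hE
  have hEm : ∀ f, MeasurableSet (E f) := by
    intro f
    have e : E f = ⋃ Λ0 : Finset H, ⋂ Λ : Finset H, ⋂ _ : Λ0 ≤ Λ,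
        {w : (Cfg H S L × Env H S) × Seeds H S |
          X.dyn P ε ε' (Λ : Set H) w.1.1 w.1.2 w.2 o = f} := by
      ext w
      simp only [hE, Set.mem_setOf_eq, eventually_atTop, Set.mem_iUnion, Set.mem_iInter, ge_iff_le]
    rw [e]
    exact MeasurableSet.iUnion fun Λ0 => MeasurableSet.iInter fun Λ =>
      MeasurableSet.iInter fun _ => hD Λ f
  have hq : ∀ f : S ≃ L, MeasurableSet
      {w : (Cfg H S L × Env H S) × Seeds H S | w.1.1 o = f} := by
    intro f
    have h1 : Measurable fun w : (Cfg H S L × Env H S) × Seeds H S => w.1.1 o :=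
      (measurable_pi_apply o).comp (measurable_fst.comp measurable_fst)
    exact h1 (MeasurableSpace.measurableSet_top (s := {f}))
  have huniq : ∀ (w : (Cfg H S L × Env H S) × Seeds H S) (f f' : S ≃ L), w ∈ E f → w ∈ E f' →
      f = f' := by
    intro w f f' h h'
    obtain ⟨Λ, h1, h2⟩ := (Filter.Eventually.and h h').exists
    exact h1.symm.trans h2
  refine measurable_to_countable' ?_
  intro f
  have e : (fun w : (Cfg H S L × Env H S) × Seeds H S =>
      X.batch P ε ε' w.1.1 w.1.2 w.2 o) ⁻¹' {f} =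
      E f ∪ ({w | w.1.1 o = f} \ ⋃ f', E f') := by
    ext w
    simp only [Set.mem_preimage, Set.mem_singleton_iff, Set.mem_union, Set.mem_diff,
      Set.mem_setOf_eq, Set.mem_iUnion, not_exists]
    unfold Sys.batch
    by_cases h : ∃ f : S ≃ L, ∀ᶠ Λ : Finset H in atTop,
        X.dyn P ε ε' (Λ : Set H) w.1.1 w.1.2 w.2 o = f
    · rw [dif_pos h]
      have hs := h.choose_spec
      constructor
      · intro h2
        left
        rw [← h2]
        exact hs
      · rintro (h2 | ⟨-, h2⟩)
        · exact huniq w _ _ hs h2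
        · exact absurd hs (h2 _)
    · rw [dif_neg h]
      constructor
      · intro h2
        right
        exact ⟨h2, fun f' hf' => h ⟨f', hf'⟩⟩
      · rintro (h2 | ⟨h2, -⟩)
        · exact absurd ⟨f, h2⟩ h
        · exact h2
  rw [e]
  exact (hEm f).union ((hq f).diff (MeasurableSet.iUnion fun f' => hEm f'))

end Pool.Agent.Helper3.OE
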