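import Pool.Agent.Helper75.OE.GoalsA

/-!
Project OE (MP_fc0446_an), packet OE-TREC: the recursion for the tripod move.
-/

namespace Pool.Agent.Helper3.OE

open Pool.Agent.Helper73.OE Pool.Agent.Helper73.OE.Sys Pool.Agent.Helper75.OE

theorem armP_out (h1 : A_PLOC) {H S L : Type} [Group H] (X : Sys H S L) (O : Edges H S) (v : H)
    (p : S) (f : Cfg H S L) (hM : X.MA O (X.Sd v p) f) (t : S) (c : L) (ht : t ≠ p)
    (hc : c ≠ f v t) (z : H) (hz : z ∉ X.Sd (X.nb v t) (X.bar t)) : X.armP O f z v t c = 1 := by
  unfold Sys.armP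
  split_ifs with ho
  · have hsub := X.branch_subset (v := v) ht
    have hmt : X.Mt f v t := hM v t (X.self_mem_Sd v p) (hsub (X.self_mem_Sd _ _)) ho
    unfold Sys.Mt at hmt
    have hne : X.tau c ≠ f (X.nb v t) (X.bar t) := by
      rw [hmt]
      intro h
      apply hc
      have := congrArg X.tau h
      rwa [X.tau_tau, X.tau_tau] at this
    have hM2 : X.MA O (X.Sd (X.nb v t) (X.bar t)) f :=
      fun a b ha hb hab => hM a b (hsub ha) (hsub hb) hab
    exact (h1 H S L X O O (X.nb v t) (X.bar t) (X.tau c) f f hne hM2 (fun _ _ => rfl)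
      (fun _ _ _ _ => Iff.rfl) z _).1 hz
  · rfl

theorem trec (h1 : A_PLOC) : A_TREC := by
  classical
  intro H S L _ X O v p y k f hy hM
  refine ⟨?_, ?_⟩
  · intro m
    refine ⟨?_, ?_⟩
    · unfold Sys.TR Sys.triP
      rw [if_pos rfl]
    · intro z hz
      unfold Sys.TR
      conv_lhs => rw [Sys.triP]
      rw [if_neg hz]
  · intro hk1 hk2
    have ht : (f v).symm y ≠ p := by
      intro h
      apply hy
      rw [← h, Equiv.apply_symm_apply]
    have hr : (f v).symm k ≠ p := by
      intro h
      apply hk1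
      rw [← h, Equiv.apply_symm_apply]
    have htr : (f v).symm y ≠ (f v).symm k := by
      intro h
      exact hk2 ((f v).symm.injective h).symm
    have a1 : ∀ z, z ∉ X.Sd (X.nb v ((f v).symm y)) (X.bar ((f v).symm y)) →
        X.armP O f z v ((f v).symm y) k = 1 := fun z hz =>
      armP_out h1 X O v p f hM _ k ht (by rw [Equiv.apply_symm_apply]; exact hk2) z hz
    have a2 : ∀ z, z ∉ X.Sd (X.nb v ((f v).symm k)) (X.bar ((f v).symm k)) →
        X.armP O f z v ((f v).symm k) (f v p) = 1 := fun z hz =>
      armP_out h1 X O v p f hM _ (f v p) hr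
        (by rw [Equiv.apply_symm_apply]; exact fun h => hk1 h.symm) z hz
    have key : ∀ z, z ≠ v → X.TR O 0 v p y k f z =
        (f z).trans ((X.armP O f z v ((f v).symm y) k).trans
          (X.armP O f z v ((f v).symm k) (f v p))) := by
      intro z hz
      unfold Sys.TR
      rw [Sys.triP, if_neg hz]
    refine ⟨?_, ?_, ?_, ?_⟩
    · unfold Sys.TR
      rw [Sys.triP, if_pos rfl]
    · intro z hz
      have hzv : z ≠ v := by
        rintro rfl
        exact X.notMem_Sd_bar _ _ hz
      rw [key z hzv, a2 z (fun h => htr (X.branch_unique hz h))]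
      unfold Sys.armP Sys.flip
      split_ifs with ho
      · rfl
      · rfl
    · intro z hz
      have hzv : z ≠ v := by
        rintro rfl
        exact X.notMem_Sd_bar _ _ hz
      rw [key z hzv, a1 z (fun h => htr (X.branch_unique h hz))]
      unfold Sys.armP Sys.flip
      split_ifs with ho
      · rfl
      · rfl
    · intro z hz h2 h3
      rw [key z hz, a1 z h2, a2 z h3]
      rfl

end Pool.Agent.Helper3.OE
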